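import Pool.Agent.Q68.FD.Main

/-!
# Tate classes on all powers of a variety are generated by those on short powers

Let `X` be any smooth projective variety over (the algebraic closure of) a finite field with `q`
elements, of dimension `d`, with the sum of the Betti numbers at most `b`. Let `D` be a common
denominator of the slopes of the Frobenius endomorphism on the cohomology of `X`. (By the theorems
of Dieudonné and Manin and of Katz and Messing one can always take `D = b !`.) Put
`N = 2 (4 b D d + 1) ^ b`.

1. Every generalised Tate class on every power of `X` is a polynomial in the pull-backs, under the
   projections, of generalised Tate classes on the powers of `X` with at most `N` factors.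
2. Hence, if the Tate conjecture holds in the strong form (the generalised eigenspaces of the
   Frobenius endomorphisms for the eigenvalues `q ^ j` in `H^(2 j)` are spanned by classes of cycles)
   for the powers of `X` with at most `N` factors, then it holds for all powers of `X`.
3. If the Frobenius endomorphism acts semisimply on the cohomology of `X`, the same is true for the
   Tate conjecture itself.

The number `N` depends neither on `p` nor on `q` nor on `X`, but only on `b`, `D`, `d`; with
`D = b !` only on the Betti numbers. For abelian varieties and with the exotic classes (not generated
by divisors) in place of the nonalgebraic ones such a bound was found by Zarhin.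

Proof: the cohomology of `X ^ n` has a basis of products of generalised eigenvectors on the factors;
such a product is a generalised Tate class if and only if its degree is even and the sum of the
vectors of the normalised slopes, at all places, of the eigenvalues is zero (Kronecker). By the lemma
of Steinitz the vectors with sum zero can be arranged such that all the partial sums are bounded, so
that two of the first ones coincide; and at most `b` places are needed.
-/

open CategoryTheory AlgebraicGeometry

universe u v

namespace Pool.Agent.Results.MP_950c68_ag.BoundedGeneration

open Module
open Pool.Agent.H914 Pool.Agent.H914.VarClass Pool.Agent.H914.VarClass.Obj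
  Pool.Agent.H914.WeilCohomology Pool.Agent.W534 Pool.Agent.Y163 Pool.Agent.Q68.FD

variable {k : Type u} [Field k] {𝒱 : VarClass k} {ops : CycleOps 𝒱}

theorem result (W : WeilCohomology.{u, v} ops) [IsAlgClosed W.K] {p : ℕ} [Fact p.Prime]
    (Φ : FrobSystem W p) (X : 𝒱.Obj) {b D : ℕ} (hb : finrank W.K (W.H X) ≤ b) (hD : 0 < D)
    (hX : HasWeilPolys Φ X D) :
    -- generation by short Tate classes
    (∀ n s j, 0 < s → ∀ c ∈ genTate Φ (pw X n) s j,
      c ∈ Algebra.adjoin W.K (shortTate Φ X (bound b (D * (2 * X.dim))) n)) ∧
    -- finite determination of the strong form of the Tate conjecture
    ((∀ m < bound b (D * (2 * X.dim)), ∀ j, SemisimpleTateIn Φ (pw X m) j) →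
      ∀ n j, SemisimpleTateIn Φ (pw X n) j) ∧
    -- finite determination of the Tate conjecture
    (Pool.Agent.Y133.Half.FrobSemisimple Φ X →
      (∀ m < bound b (D * (2 * X.dim)), ∀ j, TateIn Φ (pw X m) j) →
      ∀ n j, TateIn Φ (pw X n) j) :=
  ⟨fun _ _ _ hs _ hc => mem_adjoin_short hD hb hX hs hc,
    fun h n j => semisimpleTate_of_short hD hb hX h n j,
    fun hss h n j => tate_of_short hD hb hX hss h n j⟩

end Pool.Agent.Results.MP_950c68_ag.BoundedGeneration
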