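import Pool.Agent.Q63.FT.Fin

/-!
# The Tate conjecture for Fermat varieties in the quadratic range

The primitive cohomology in degree `n` (`n` even) of the Fermat variety
`x_0 ^ m + ... + x_(n+1) ^ m = 0` over an algebraic closure of the field with `p` elements (`p` prime
to `m`) splits into lines indexed by the multisets `s` of `n + 2` nonzero residues modulo `m` with sum
zero, and the classes over a finite field of the Tate conjecture are spanned by the lines of the *Tate
characters* (`IsTate`, Stickelberger), those of the pairs `{a, -a}`, by the inductive structure of
Shioda and Katsura, being algebraic. The lines of the Tate characters with four entries are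
algebraic by the theorem of Tate on divisors on products of curves, those of the standard characters
by Aoki; unions, the removal of a pair, and passing from the degree `N m` to the degree `m` preserve
algebraicity.

The theorem: let the order `f` of `p` modulo `m` be odd (this includes the case `p = 1` modulo `m`),
and let `s` be a Tate character of degree `m` such that
* `4 * f * (|s| + k) < (q - 1) * (r - 1)` for all distinct odd primes `q`, `r` dividing `m`, where `k`
  is the number of entries of `s` whose additive order is `2` modulo `4`, and
* if `4` divides `m`, then `2 * f` times the number of entries of `s` of order divisible by `4` is less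
  than `q - 1` for every odd prime `q` dividing `m`.

Then `s` belongs, after raising the degree to a suitable multiple prime to `p`, to the family
generated by the pairs, the Tate characters with four entries and the standard characters.

So the Tate conjecture holds over all finite fields of characteristic `p`, for which the order `f` of
`p` modulo `m` is odd, for the Fermat variety of degree `m` and dimension `n`
* for odd `m` if `4 * f * (n + 2) < (q - 1) * (r - 1)`, with `q < r` the two smallest primes of `m`
  (and for all `n` if `m` is a prime power);
* for `m` equal to `2` modulo `4` if `8 * f * (n + 2) < (q - 1) * (r - 1)`, with `q < r` the two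
  smallest odd primes of `m`;
* for `m` divisible by `4` if `2 * f * (n + 2) < q - 1`, with `q` the smallest odd prime of `m`.

Proof: the sum of the translates of `s` by the powers of `p` is a Hodge character with `f * |s|`
entries, which is generated by pairs and standard characters by the theorem of
`MP_e12fcd_ag.FermatQuadraticRange`. So it contains an even number of entries of every support (the
set of the prime divisors of the order), and as `f` is odd the same is true for `s`. Now the parity
criterion of the starting tree (`MP_0d42ed_ag.FermatParity`) applies. For even `f` the argument does
not apply: a standard character can be twice a Tate character, up to translation of its entries by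
powers of `p`, and such a half need not have this parity property. An example is the Tate character
`{1, 4, 16, 22, 25, 31}` of degree `33` for `p = 43` (`f = 2`), with five entries of order `33` and
one of order `3`.
-/

set_option autoImplicit false

namespace Pool.Agent.Results.MP_950c68_ag.FermatQuadraticRange

open Pool.Agent.H916T

/-- Short Tate characters of degree `m` in a characteristic `p` of odd order modulo `m` are generated,
after raising the degree, by the characters of surfaces, the standard characters and pairs. -/
theorem result (p m : ℕ) (hp : p.Prime) (hm : 0 < m) (hpm : p.Coprime m)
    (hf : Odd (orderOf (p : ZMod m))) (s : Multiset (ZMod m)) (hs : IsTate p m s) (hne : s ≠ 0)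
    (h2 : ∀ q r : ℕ, q.Prime → r.Prime → q ≠ 2 → r ≠ 2 → q ≠ r → q ∣ m → r ∣ m →
      4 * (orderOf (p : ZMod m) *
        (Multiset.card s + Multiset.card (s.filter fun a => addOrderOf a % 4 = 2))) <
        (q - 1) * (r - 1))
    (h4 : 4 ∣ m → ∀ q : ℕ, q.Prime → q ≠ 2 → q ∣ m →
      2 * (orderOf (p : ZMod m) * Multiset.card (s.filter fun a => 4 ∣ addOrderOf a)) < q - 1) :
    ∃ N : ℕ, 0 < N ∧ p.Coprime N ∧
      Generated (N * m)
        (fun t => SurfaceTate p (N * m) t ∨ ∃ q : ℕ, q.Prime ∧ q ∣ N * m ∧ Standard q (N * m) t)
        (s.map fun a => ((N * a.val : ℕ) : ZMod (N * m))) := by
  obtain ⟨N, hN, hpN, H⟩ := Pool.Agent.Q63.FT.tate_of_small hp hm hpm hf s hs hne h2 h4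
  exact ⟨N, hN, hpN, H (N * m) rfl⟩

end Pool.Agent.Results.MP_950c68_ag.FermatQuadraticRange
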