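import Mathlib
import Pool.Agent.H485R3.Exact.Generate

/-!
# The Tate classes on all products of powers of ordinary K3 surfaces: an exact criterion

Let `X i`, `i ∈ I`, be finitely many varieties over finite fields of characteristic `p` such that,
apart from algebraic classes, the cohomology is spanned by eigenvectors of the Frobenius endomorphism
in one degree, with eigenvalues conjugate to one Weil number `π i` of K3 type: `π i` generates a CM
field (or lies in the CM field `K i`), and its `p`-adic slopes are all in the middle, except for one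
slope, at an embedding `x i` of `K i` in `ℚ_p`, and the opposite slope at the complex conjugate
embedding. Examples are the ordinary K3 surfaces (and cubic fourfolds), with `K i = ℚ(π i)` the field
of the Frobenius endomorphism on the transcendental cohomology, and ordinary elliptic curves. It is
known (Nygaard, Zarhin) that the Tate conjecture holds for all powers of one ordinary K3 surface.

`PairingsGenerate` says that all Tate classes, over all finite extensions, on all products of
powers of the `X i` are linear combinations of products of algebraic classes and of Tate classes on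
the squares `X i × X i` (pairings; for K3 surfaces they are algebraic by the known cases of the Tate
conjecture). So it implies the Tate conjecture for all products of powers of the `X i`.

The theorem:

* if `PairingsGenerate` holds, then for `i ≠ j` the images of `K i` and `K j` in `ℚ_p` intersect in a
  totally real field: all `y ∈ K i` with `x i y = x j y'`, `y' ∈ K j`, are fixed by the complex
  conjugation;
* the converse is true if there are only two varieties, and also if the fields `K i` are Galois over
  `ℚ` (for any number of varieties). So in these cases the criterion is exact;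
* in general `PairingsGenerate` holds if, for all `i`, the image of `K i` has totally real
  intersection with the field generated by the intersections of the images of the `K j`, `j ≠ i`,
  with a normal extension `M i` of `ℚ` containing the image of `K i`.
-/

set_option autoImplicit false

namespace Pool.Agent.Results.MP_950c68_ag.K3ProductsExact

open NumberField NumberField.IsCMField Pool.Agent.H485R3.Exact Polynomial

/-- All elements of `E` are totally real. -/
def IsTotReal {p : ℕ} [Fact p.Prime] (E : IntermediateField ℚ (PadicAlgCl p)) : Prop :=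
  ∀ z ∈ E, ∀ w : ℂ, aeval w (minpoly ℚ z) = 0 → w.im = 0

/-- The image of `K` under the embedding `x` in `ℚ_p`, in an algebraic closure of `ℚ_p`. -/
noncomputable def image {K : Type} [Field K] [NumberField K] (p : ℕ) [Fact p.Prime]
    (x : K →+* ℚ_[p]) : IntermediateField ℚ (PadicAlgCl p) :=
  (((algebraMap ℚ_[p] (PadicAlgCl p)).comp x).toRatAlgHom : K →ₐ[ℚ] PadicAlgCl p).fieldRange

/-- The fields `K i` and `K j`, embedded in `ℚ_p` by `x i` and `x j`, have a totally real
intersection, for all `i ≠ j`. -/
def MeetInReal {I : Type} {K : I → Type} [∀ i, Field (K i)] [∀ i, NumberField (K i)]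
    [∀ i, IsCMField (K i)] (p : ℕ) [Fact p.Prime] (x : ∀ i, K i →+* ℚ_[p]) : Prop :=
  ∀ i j, i ≠ j → ∀ (y : K i) (y' : K j), x i y = x j y' → complexConj (K i) y = y

section lemmas

variable {p : ℕ} [Fact p.Prime]

/-- a field generated by totally real fields is totally real -/
theorem isTotReal_iSup {J : Type} (E : J → IntermediateField ℚ (PadicAlgCl p))
    (halg : ∀ j, ∀ z ∈ E j, IsIntegral ℚ z) (hE : ∀ j, IsTotReal (E j)) :
    IsTotReal (⨆ j, E j) := by
  intro z hz w hw
  set S : IntermediateField ℚ (PadicAlgCl p) := ⨆ j, E j with hS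
  have hle : ∀ j, E j ≤ S := fun j => le_iSup E j
  have hSalg : Algebra.IsAlgebraic ℚ S := by
    have h1 : ∀ j, Algebra.IsAlgebraic ℚ (E j) := fun j =>
      ⟨fun y => by
        have h2 := halg j y.1 y.2
        have h3 : IsIntegral ℚ y := by
          rwa [← isIntegral_algebraMap_iff (A := E j) (B := PadicAlgCl p)
            (algebraMap (E j) (PadicAlgCl p)).injective]
        exact h3.isAlgebraic⟩
    rw [hS]
    exact IntermediateField.isAlgebraic_iSup h1
  have hmin : minpoly ℚ (⟨z, hz⟩ : S) = minpoly ℚ z := by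
    exact (minpoly.algebraMap_eq (A := ℚ) (B := S) (B' := PadicAlgCl p)
      (algebraMap S (PadicAlgCl p)).injective ⟨z, hz⟩).symm
  obtain ⟨φ, hφ⟩ := IntermediateField.exists_algHom_of_splits_of_aeval (F := ℚ) (E := S) (K := ℂ)
    (fun s => ⟨(hSalg.isAlgebraic s).isIntegral, IsAlgClosed.splits _⟩)
    (x := (⟨z, hz⟩ : S)) (y := w) (by rw [hmin]; exact hw)
  -- the elements with real image form a field which contains the `E j`
  let R : IntermediateField ℚ ℂ :=
    { (Complex.ofRealHom.toRatAlgHom : ℝ →ₐ[ℚ] ℂ).fieldRange with }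
  let R' : IntermediateField ℚ S := R.comap φ
  have hR' : ∀ j, E j ≤ R'.map S.val := by
    intro j y hy
    refine ⟨⟨y, hle j hy⟩, ?_, rfl⟩
    change φ ⟨y, hle j hy⟩ ∈ R
    have h2 : aeval (φ ⟨y, hle j hy⟩) (minpoly ℚ y) = 0 := by
      have h3 : minpoly ℚ (⟨y, hle j hy⟩ : S) = minpoly ℚ y :=
        (minpoly.algebraMap_eq (A := ℚ) (B := S) (B' := PadicAlgCl p)
          (algebraMap S (PadicAlgCl p)).injective ⟨y, hle j hy⟩).symm
      rw [← h3, aeval_algHom_apply, minpoly.aeval, map_zero]
    have h4 := hE j y hy _ h2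
    refine ⟨(φ ⟨y, hle j hy⟩).re, ?_⟩
    apply Complex.ext
    · simp
    · simp [h4]
  have h5 : S ≤ R'.map S.val := iSup_le hR'
  obtain ⟨y, hy, hyz⟩ := h5 hz
  have h6 : y = ⟨z, hz⟩ := Subtype.ext hyz
  have h7 : φ ⟨z, hz⟩ ∈ R := by rw [← h6]; exact hy
  rw [hφ] at h7
  obtain ⟨r, hr⟩ := h7
  rw [← hr]
  change (Complex.ofRealHom r).im = 0
  simp

theorem isIntegral_image {K : Type} [Field K] [NumberField K] (x : K →+* ℚ_[p]) :
    ∀ z ∈ image p x, IsIntegral ℚ z := by
  rintro z ⟨y, rfl⟩
  exact (Algebra.IsIntegral.isIntegral y).map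
    (((algebraMap ℚ_[p] (PadicAlgCl p)).comp x).toRatAlgHom : K →ₐ[ℚ] PadicAlgCl p)

/-- elements fixed by the complex conjugation are totally real -/
theorem real_of_conj {K : Type} [Field K] [NumberField K] [IsCMField K] (x : K →+* ℚ_[p]) (y : K)
    (hy : complexConj K y = y) (w : ℂ)
    (hw : aeval w (minpoly ℚ (algebraMap ℚ_[p] (PadicAlgCl p) (x y))) = 0) : w.im = 0 := by
  have h1 : minpoly ℚ (algebraMap ℚ_[p] (PadicAlgCl p) (x y)) = minpoly ℚ y := by
    exact minpoly.algHom_eq
      (((algebraMap ℚ_[p] (PadicAlgCl p)).comp x).toRatAlgHom : K →ₐ[ℚ] PadicAlgCl p)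
      (RingHom.injective _) y
  rw [h1] at hw
  obtain ⟨φ, hφ⟩ := root_minpoly y w hw
  have h2 : starRingEnd ℂ (φ y) = φ y := by
    conv_rhs => rw [← hy]
    rw [complexEmbedding_complexConj]
  rw [hφ] at h2
  exact Complex.conj_eq_iff_im.1 h2

theorem meet_of_meetInReal {I : Type} {K : I → Type} [∀ i, Field (K i)]
    [∀ i, NumberField (K i)] [∀ i, IsCMField (K i)] {x : ∀ i, K i →+* ℚ_[p]}
    (h : MeetInReal p x) {i j : I} (hij : i ≠ j) : IsTotReal (image p (x i) ⊓ image p (x j)) := by
  rintro z ⟨⟨y, hy⟩, ⟨y', hy'⟩⟩ w hw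
  have h1 : algebraMap ℚ_[p] (PadicAlgCl p) (x i y) = z := hy
  have h2 : algebraMap ℚ_[p] (PadicAlgCl p) (x j y') = z := hy'
  have h3 : x i y = x j y' := by
    apply (algebraMap ℚ_[p] (PadicAlgCl p)).injective
    rw [h1, h2]
  rw [← h1] at hw
  exact real_of_conj (x i) y (h i j hij y y' h3) w hw

end lemmas

/-- **Tate classes on all products of powers of varieties of ordinary K3 type.** -/
theorem result {I : Type} [Finite I] {K : I → Type} [∀ i, Field (K i)] [∀ i, NumberField (K i)]
    [∀ i, IsCMField (K i)] (p : ℕ) [Fact p.Prime] (x : ∀ i, K i →+* ℚ_[p]) (a : I → ℕ)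
    (π : ∀ i, K i) (hπ : ∀ i, IsK3Type p (a i) (x i) (π i)) :
    (PairingsGenerate π (fun i => p ^ a i) → MeetInReal p x) ∧
    ((Nat.card I = 2 ∨ ∀ i, IsGalois ℚ (K i)) →
      (PairingsGenerate π (fun i => p ^ a i) ↔ MeetInReal p x)) ∧
    ∀ M : I → IntermediateField ℚ (PadicAlgCl p), (∀ i, image p (x i) ≤ M i) →
      (∀ i, ∀ z ∈ M i, ∀ y : PadicAlgCl p, aeval y (minpoly ℚ z) = 0 → y ∈ M i) →
      (∀ i, IsTotReal (image p (x i) ⊓ ⨆ j ∈ {j | j ≠ i}, M i ⊓ image p (x j))) →
      PairingsGenerate π (fun i => p ^ a i) := by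
  classical
  have hgen : ∀ M : I → IntermediateField ℚ (PadicAlgCl p), (∀ i, image p (x i) ≤ M i) →
      (∀ i, ∀ z ∈ M i, ∀ y : PadicAlgCl p, aeval y (minpoly ℚ z) = 0 → y ∈ M i) →
      (∀ i, IsTotReal (image p (x i) ⊓ ⨆ j ∈ {j | j ≠ i}, M i ⊓ image p (x j))) →
      PairingsGenerate π (fun i => p ^ a i) := fun M h1 h2 h3 =>
    generate_of_real p x a π hπ M h1 h2 h3
  have hnec : PairingsGenerate π (fun i => p ^ a i) → MeetInReal p x := fun h i j hij y y' hy =>
    real_of_generate p x a π hπ h i j hij y y' hy
  refine ⟨hnec, fun hI => ⟨hnec, fun hreal => ?_⟩, hgen⟩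
  rcases hI with hI | hI
  · -- two varieties: take for `M i` the field of all algebraic numbers
    refine hgen (fun _ => algebraicClosure ℚ (PadicAlgCl p)) ?_ ?_ ?_
    · intro i z hz
      exact mem_algebraicClosure_iff'.2 (isIntegral_image (x i) z hz)
    · intro i z hz y hy
      rw [mem_algebraicClosure_iff']
      have h0 : IsIntegral ℚ z := mem_algebraicClosure_iff'.1 hz
      exact ⟨minpoly ℚ z, minpoly.monic h0, hy⟩
    · intro i z hz
      obtain ⟨hz1, hz2⟩ := hz
      have hcard : ∃ j : I, j ≠ i ∧ ∀ j', j' ≠ i → j' = j := by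
        rw [Nat.card_eq_two_iff] at hI
        obtain ⟨u, v, huv, huniv⟩ := hI
        have hmem : ∀ t : I, t = u ∨ t = v := fun t => by
          have : t ∈ ({u, v} : Set I) := by rw [huniv]; exact Set.mem_univ t
          simpa using this
        rcases hmem i with rfl | rfl
        · exact ⟨v, huv.symm, fun j' hj' => (hmem j').resolve_left hj'⟩
        · exact ⟨u, huv, fun j' hj' => (hmem j').resolve_right hj'⟩
      obtain ⟨j, hji, hj⟩ := hcard
      have h4 : (⨆ j ∈ {j | j ≠ i}, algebraicClosure ℚ (PadicAlgCl p) ⊓ image p (x j)) ≤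
          image p (x j) := by
        refine iSup₂_le fun j' hj' => ?_
        rw [hj j' hj']
        exact inf_le_right
      exact meet_of_meetInReal hreal hji.symm z ⟨hz1, h4 hz2⟩
  · -- Galois fields
    refine hgen (fun i => image p (x i)) (fun i => le_rfl) ?_ ?_
    · intro i z hz y hy
      have hnorm : Normal ℚ (image p (x i)) := by
        have e : K i ≃ₐ[ℚ] image p (x i) := AlgEquiv.ofInjectiveField _
        have : Normal ℚ (K i) := (hI i).to_normal
        exact Normal.of_algEquiv e
      have h1 : minpoly ℚ (⟨z, hz⟩ : image p (x i)) = minpoly ℚ z :=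
        (minpoly.algebraMap_eq (A := ℚ) (B := image p (x i)) (B' := PadicAlgCl p)
          (algebraMap (image p (x i)) (PadicAlgCl p)).injective ⟨z, hz⟩).symm
      have h2 := hnorm.splits ⟨z, hz⟩
      rw [h1] at h2
      have h0 : minpoly ℚ z ≠ 0 := minpoly.ne_zero (isIntegral_image (x i) z hz)
      have h3 : ((minpoly ℚ z).map (algebraMap ℚ (PadicAlgCl p))).Splits := IsAlgClosed.splits _
      refine (IntermediateField.splits_iff_mem (F := image p (x i)) h3).1 h2 y ?_
      exact (mem_rootSet.2 ⟨h0, hy⟩)
    · intro i z hz w hw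
      refine isTotReal_iSup (J := {j : I // j ≠ i}) (fun j => image p (x i) ⊓ image p (x j.1))
        (fun j z hz => isIntegral_image (x i) z hz.1)
        (fun j => meet_of_meetInReal hreal j.2.symm) z ?_ w hw
      have h1 := hz.2
      rw [iSup_subtype]
      exact h1

end Pool.Agent.Results.MP_950c68_ag.K3ProductsExact
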