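import Mathlib
import Pool.Agent.Q70.HN.Times
import Pool.Agent.Q70.MM.Times

/-!
# The Tate conjecture over finite fields for abelian varieties with several non-isogenous factors with
the same CM field

Let `A` be an abelian variety, of any dimension, over the field with `q = p ^ a` elements. The theorems
of the starting files on products of abelian varieties of large dimension over finite fields suppose
that the simple factors which are not isogenous have different and unrelated CM fields. Here `A` may
have several factors `A c l` (`l` in a finite set `J c`) with the **same** CM field `K c`. We suppose:

* the functions `n` on the complex embeddings of `K c` with `n (conj φ) = - n φ` are an absolutely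
  irreducible representation of the automorphisms of `ℂ` (`OddAbsolutelyIrreducible`; the generic
  case, it is true, for example, if the Galois group of the normal closure of `K c` consists of all
  permutations of the embeddings compatible with the complex conjugation, or if only some
  automorphism exchanges one embedding with its complex conjugate and fixes all the others);
* there are no equivariant maps between these functions for `K c` and `K c'` if `c ≠ c'`
  (`Unrelated`);
* `A` is isogenous to a product of powers of abelian varieties with the characteristic polynomials of
  Frobenius `f i`, `i = (c, l)`, the complex roots of `f i` being conjugates of a Weil number `π c l`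
  for `q` in `K c` (`IsPolyOf`, `IsAbelian`).

**Theorem** (first part). Suppose that for each `c` the slopes of the numbers `π c l`, `l` in `J c`, as
functions on the set of the embeddings of `K c` into the algebraic closure of `ℚ_p`, minus `1 / 2`,
are linearly independent over `ℚ` (`IndependentSlopes`). Let `Z` be a smooth projective variety over
the same field all of whose Frobenius eigenvalues are unrelated to the fields `K c` or have smaller
degree than `K c` (`HarmlessRoots`; `Z` may be a point, and any variety with Betti numbers smaller
than the degrees `[K c : ℚ]`). Then for every `c` **the Tate
conjecture holds for `A × Z` in codimension `c` if and only if it holds for `Z` in the codimensions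
`c - i`, `0 ≤ i ≤ dim A`**, and the same is true for the Tate conjecture together with the
semisimplicity of the eigenvalue `q ^ c` (`TateFor`). In particular (`Z` a point) the Tate conjecture
is true for `A` in all codimensions, and, as only the factors matter and not their powers, for all
powers of `A`.

The condition means that there is no multiplicative relation `∏ l, π c l ^ (m l) = ζ q ^ r`, `m ≠ 0`,
with a root of unity `ζ` between the numbers `π c l` themselves, for one `c`. So for the fields
considered here relations between the conjugates of all the numbers `π c l` are excluded by the
absence of relations between these numbers inside of each field.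

**Second part (ordinary abelian varieties): at most three non-isogenous factors for each field.** If all
`π c l` are ordinary, no set `J c` has more than three elements, and for `l ≠ l'` the slopes of
`π c l` and `π c l'` are neither equal nor opposite (`DifferentSlopes`; for ordinary numbers this means
that no positive powers are equal or complex conjugate, so it means that `A c l` and `A c l'` are not
isogenous over an extension of the ground field), then the conclusion holds. The number three is
optimal: a CM field of degree six has, for a prime number `p` that splits completely, four
pairs of conjugate ordinary types, with a linear relation, and the product of the four abelian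
threefolds has exotic Tate classes. For example: for each CM field `K` of degree `2 g` as above,
the Tate conjecture holds for all the abelian varieties which are isogenous to products of
powers of three (or two) ordinary abelian varieties of dimension `g` with complex multiplication
by `K`. The cohomology is any Weil cohomology with coefficients in an algebraically closed field.

Relation to the starting files and to the results of this team. The starting theorems
`AlmostAllSlopeTypes` (this folder), `FiveAndSurfacesTimesVarieties` (this folder), `AllCMTypesTimes`
(MP_0f183b_ag) and the theorems `SmallSlopeDeviation` (MP_0f183b_ag), `TimesSmallHodgeNumbers`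
(MP_021685_ag) of helper70 are about products of powers of abelian varieties with pairwise unrelated
fields, one for each field (or of dimension at most three with different Galois closures). Published:
Lenstra and Zarhin, Zarhin, Dupuy, Kedlaya and Zureick-Brown treat the powers of a single simple
abelian variety, or products with pairwise independent fields.

The proof. A relation between the conjugates of the `π c l` gives rational odd functions `n c l` on the
embeddings of `K c` such that `∑ c, ∑ l, ∑ x, n c l x * u c l (σ x) = 0` for all `σ` in the Galois
group, where `u c l` is the slope function minus `1 / 2`. Summing the square over `σ`, by Schur's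
lemma for the invariant form `∑ σ, u c l (σ x) * u c' l' (σ y)`, which is zero for `c ≠ c'` or
`y ≠ x, conj x`, one obtains `∑ l, n c l x * u c l (σ x) = 0` for each single `x`, `c` and `σ`, that is
a linear relation between the slope functions of the `π c l`, `l` in `J c`, with the coefficients
`n c l x`. So these are zero. For ordinary numbers the `u c l` are functions with two opposite values,
and three such functions, no two of which are equal or opposite, are linearly independent. The
reduction of the conjecture to relations is the one of the starting files (Y1.CT).
-/

set_option autoImplicit false

namespace Pool.Agent.Results.MP_950c68_ag.ThreeTypesPerField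

open NumberField Module Polynomial Pool.Agent.Y137.MV Pool.Agent.Y137.SL Pool.Agent.Y1.CT
  Pool.Agent.Q70.SQ Pool.Agent.Q70.MM

/-- **The Tate conjecture for `A × Z` in codimension `c` is equivalent to the one for `Z` in the
codimensions `c - i`, `0 ≤ i ≤ dim A`, for the abelian varieties `A` over finite fields which are
products of powers of abelian varieties with absolutely irreducible CM fields, pairwise equal or
unrelated, those with the same field having linearly independent slopes (first part), for instance
of at most three non-isogenous ordinary ones for each field (second part).** -/
theorem result :
    (∀ (p : ℕ) [Fact p.Prime] (a : ℕ) (C : Type) [Fintype C] (K : C → Type)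
      [∀ c, Field (K c)] [∀ c, NumberField (K c)] [∀ c, IsCMField (K c)]
      (J : C → Type) [∀ c, Fintype (J c)] (π : ∀ c, J c → K c) (f : (Σ c, J c) → ℤ[X]), 0 < a →
      (∀ c l, π c l * IsCMField.complexConj (K c) (π c l) = (p : K c) ^ a) →
      (∀ c, OddAbsolutelyIrreducible (K c)) →
      (∀ c c', c ≠ c' → Pool.Agent.Y137.MV.Unrelated (K c) (K c')) →
      IndependentSlopes p a π → (∀ i, IsPolyOf (π i.1 i.2) (f i)) →
      TateFor (HarmlessRoots K) (p ^ a) f) ∧
    (∀ (p : ℕ) [Fact p.Prime] (a : ℕ) (C : Type) [Fintype C] (K : C → Type)
      [∀ c, Field (K c)] [∀ c, NumberField (K c)] [∀ c, IsCMField (K c)]
      (J : C → Type) [∀ c, Fintype (J c)] (π : ∀ c, J c → K c) (f : (Σ c, J c) → ℤ[X]), 0 < a →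
      (∀ c l, π c l * IsCMField.complexConj (K c) (π c l) = (p : K c) ^ a) →
      (∀ c, OddAbsolutelyIrreducible (K c)) →
      (∀ c c', c ≠ c' → Pool.Agent.Y137.MV.Unrelated (K c) (K c')) →
      (∀ c, Fintype.card (J c) ≤ 3) → (∀ c l, IsOrdinary p a (π c l)) →
      (∀ c l l', l ≠ l' → DifferentSlopes p a (π c l) (π c l')) →
      (∀ i, IsPolyOf (π i.1 i.2) (f i)) →
      TateFor (HarmlessRoots K) (p ^ a) f) := by
  have hgen : ∀ (p : ℕ) [Fact p.Prime] (a : ℕ) (C : Type) [Fintype C] (K : C → Type)
      [∀ c, Field (K c)] [∀ c, NumberField (K c)] [∀ c, IsCMField (K c)]
      (J : C → Type) [∀ c, Fintype (J c)] (π : ∀ c, J c → K c) (f : (Σ c, J c) → ℤ[X]), 0 < a →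
      (∀ c l, π c l * IsCMField.complexConj (K c) (π c l) = (p : K c) ^ a) →
      (∀ c, OddAbsolutelyIrreducible (K c)) →
      (∀ c c', c ≠ c' → Pool.Agent.Y137.MV.Unrelated (K c) (K c')) →
      IndependentSlopes p a π → (∀ i, IsPolyOf (π i.1 i.2) (f i)) →
      TateFor (HarmlessRoots K) (p ^ a) f := by
    intro p _ a C _ K _ _ _ J _ π f ha hw habs hun hind hf
    have hang := angle_same π ha hw habs hun hind
    have hno := noRel_of_angle (F := fun i : Σ c, J c => K i.1) hang (fun i => hw i.1 i.2) f hf
    exact Pool.Agent.Q70.HN.tateFor_mono (fun χ hχ ρ hρ => ⟨(unrelated_of_harmless (fun c => (habs c).1)
      (hχ ρ hρ)).1, fun i => (unrelated_of_harmless (fun c => (habs c).1) (hχ ρ hρ)).2 i.1⟩)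
      (tateFor_of (Nat.one_lt_pow ha.ne' (Fact.out : p.Prime).one_lt) hno)
  refine ⟨hgen, ?_⟩
  intro p _ a C _ K _ _ _ J _ π f ha hw habs hun hcard hord hdiff hf
  exact hgen p a C K J π f ha hw habs hun (independent_of_three π ha hcard hord hdiff) hf

end Pool.Agent.Results.MP_950c68_ag.ThreeTypesPerField
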